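import Pool.Agent.Y266.LT.POS
import Pool.Agent.Y266.LT.N3
import Pool.Agent.Y266.LT.N4ALL
import Pool.Agent.Y266.LT.INV2
import Pool.Agent.Y266.LT.FIN
import Pool.Agent.Y266.LT.TRI
import Pool.Agent.Y266.LT.PROD
import Pool.Agent.Y266.LT.NI
import Pool.Agent.Y266.LT.TQ
import Pool.Agent.Y266.LT.R3
import Pool.Agent.Y266.LT.RN
import Pool.Agent.Y266.LT.R22
import Pool.Agent.Y266.LT.FF

/-!
# Locality tensor products: complete classification by field and dimension

Let `K` be any field and `E` any vector space over `K`. All locality tensor products `V ⊗_⊤ W` of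
subspaces of `E`, for all locality relations on `E`, are locality vector spaces if and only if
`dim E ≤ 3`, or `dim E = 4` and `K` has no subring with a nontrivial involution.
-/

set_option autoImplicit false

open scoped TensorProduct

universe u v

namespace Pool.Agent.Results.MP_16c542_al.Classification

open Pool.Agent.Results.MP_16c542_al.NotLocality Pool.Agent.Y266.LT

/-- For every locality relation on `E` all locality tensor products `V ⊗_⊤ W` of subspaces of `E`
are locality vector spaces. -/
def AllLocality (K : Type u) [Field K] (E : Type v) [AddCommGroup E] [Module K E] : Prop :=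
  ∀ r : E → E → Prop, IsLocalitySpace K r →
    ∀ V W : Submodule K E, IsLocalitySpace K (TensorRel r V W)

theorem result :
    -- the classification
    (∀ (K : Type u) [Field K] (E : Type v) [AddCommGroup E] [Module K E],
      AllLocality K E ↔ Module.rank K E ≤ 3 ∨ (Module.rank K E = 4 ∧ ¬ HasInvolution K)) ∧
    -- in all other cases some `E ⊗_⊤ E` fails: the polar set of one element is not a subspace
    (∀ (K : Type u) [Field K] (E : Type v) [AddCommGroup E] [Module K E],
      ¬ AllLocality K E → HasBad K E) ∧
    -- which fields have a subring with a nontrivial involution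
    (∀ (K F : Type u) [Field K] [CommRing F] [Algebra F K] (t : K), Transcendental F t →
      HasInvolution K) ∧
    HasInvolution ℝ ∧ HasInvolution ℂ ∧ ¬ HasInvolution ℚ ∧
    ∀ (K : Type u) [Field K] [Finite K], HasInvolution K ↔ IsSquare (Nat.card K) := by
  have hp : ∀ (K : Type u) [Field K] (E : Type v) [AddCommGroup E] [Module K E],
      Module.rank K E ≤ 3 → AllLocality K E := fun K _ E _ _ h r hr V W => pos K E r h hr V W
  have h4 : ∀ (K : Type u) [Field K] (E : Type v) [AddCommGroup E] [Module K E],
      HasInvolution K → 4 ≤ Module.rank K E → HasBad K E := by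
    intro K _ E _ _ hK hE
    refine lift K 3 (n3 K hK) E ?_
    have : ((3 : ℕ) : Cardinal) + 1 = 4 := by norm_num
    rwa [this]
  have h5 : ∀ (K : Type u) [Field K] (E : Type v) [AddCommGroup E] [Module K E],
      5 ≤ Module.rank K E → HasBad K E := by
    intro K _ E _ _ hE
    refine lift K 4 (n4all K) E ?_
    have : ((4 : ℕ) : Cardinal) + 1 = 5 := by norm_num
    rwa [this]
  have hsucc : ∀ (n : ℕ) (c : Cardinal.{v}), ¬ c ≤ (n : Cardinal) → ((n + 1 : ℕ) : Cardinal) ≤ c := by
    intro n c h
    have h1 := Order.succ_le_of_lt (not_le.1 h)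
    rwa [Cardinal.succ_natCast, ← Nat.cast_succ] at h1
  -- the three cases
  have hcases : ∀ (K : Type u) [Field K] (E : Type v) [AddCommGroup E] [Module K E],
      (Module.rank K E ≤ 3 ∨ (Module.rank K E = 4 ∧ ¬ HasInvolution K)) ∨ HasBad K E := by
    intro K _ E _ _
    by_cases h : Module.rank K E ≤ 3
    · exact Or.inl (Or.inl h)
    have h' : 4 ≤ Module.rank K E := by
      have := hsucc 3 (Module.rank K E) (by exact_mod_cast h)
      exact_mod_cast this
    by_cases hK : HasInvolution K
    · exact Or.inr (h4 K E hK h')
    by_cases h6 : Module.rank K E ≤ 4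
    · exact Or.inl (Or.inr ⟨le_antisymm h6 h', hK⟩)
    · refine Or.inr (h5 K E ?_)
      have := hsucc 4 (Module.rank K E) (by exact_mod_cast h6)
      exact_mod_cast this
  have hgood : ∀ (K : Type u) [Field K] (E : Type v) [AddCommGroup E] [Module K E],
      (Module.rank K E ≤ 3 ∨ (Module.rank K E = 4 ∧ ¬ HasInvolution K)) → AllLocality K E := by
    intro K _ E _ _ h
    rcases h with h | ⟨h, hK⟩
    · exact hp K E h
    · exact fun r hr V W => dim4 tri (r3 tn q2 prj) (rn tn q1 q2 prod non)
        (r22 tn prj prod non iso) hr h hK V W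
  have hnot : ∀ (K : Type u) [Field K] (E : Type v) [AddCommGroup E] [Module K E],
      HasBad K E → ¬ AllLocality K E := by
    rintro K _ E _ _ ⟨r, hr, -, hbad⟩ h
    exact hbad (h r hr ⊤ ⊤)
  refine ⟨fun K _ E _ _ => ⟨fun h => ?_, hgood K E⟩, fun K _ E _ _ h => ?_,
    fun K F _ _ _ t ht => hasInvolution_of_transcendental ht,
    hasInvolution_real, hasInvolution_complex, not_hasInvolution_rat,
    fun K _ _ => ff K⟩
  · rcases hcases K E with h' | h'
    · exact h'
    · exact absurd h (hnot K E h')
  · rcases hcases K E with h' | h'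
    · exact absurd (hgood K E h') h
    · exact h'

end Pool.Agent.Results.MP_16c542_al.Classification
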